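import Mathlib

/-!
# The stochastic hyperbolic infinite quadrangulation has positive anchored expansion

We answer Q1 of MP_b23abe_pr positively and prove more: almost surely every finite set `S` of
vertices of the SHIQ satisfies `|S|_deg ≤ 7 |∂_E S|`, so the SHIQ is nonamenable.

Proof. For a vertex `v` let `a v` and `b v` be the vertices of the successors of the two corners of
`v` that are followed by the edges to its second and third child. The successor of such a corner
lies on the leftmost ray below that child, so it is of the form `0, …, 0, i, v` with `i ≠ 0`, and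
this list determines `i` and `v`: the map `(v, i) ↦ a v, b v` is injective. Hence for a finite set
`S` at least `2 |S| - |S|` of the edges `(v, a v)`, `(v, b v)`, `v ∈ S`, leave `S`. As there are at
most `4 |S|` edges drawn from the corners of `S`, at most `3 |S|` edges are inside `S`, and
`|S|_deg ≤ 6 |S| + |∂_E S| ≤ 7 |∂_E S|`.
-/

open MeasureTheory ProbabilityTheory Filter
open scoped ENNReal Topology

namespace Pool.Agent.Results.MP_b23abe_pr.NonAmenable

/-! ## Definitions: the tree, its labels, its corners and the construction -/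

/-- Vertices of the rooted plane tree `T₃`: the root is `[]` and the children of `v`, in clockwise
order after the edge from `v` to its parent, are `0 :: v`, `1 :: v`, `2 :: v`. (At the root, where
there is no parent, the three edges are in the cyclic clockwise order `0, 1, 2`.) -/
abbrev Vertex := List (Fin 3)

/-- Edges of `T₃`: `(v, i)` stands for the edge between `v` and its child `i :: v`. -/
abbrev TreeEdge := Vertex × Fin 3

/-- The label of a vertex: the sum of the `d e` over the edges `e` of the geodesic from the root. -/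
def label (d : TreeEdge → ℤ) : Vertex → ℤ
  | [] => 0
  | i :: v => label d v + d (v, i)

/-- The corners of `T₃`. A corner is named after the tree edge that follows it in clockwise order
around its vertex: `down v i` is the corner at `v` followed by the edge to the child `i :: v`, and
`up v i` is the corner at `i :: v` followed by the edge to the parent `v`. -/
inductive Corner
  | down (v : Vertex) (i : Fin 3)
  | up (v : Vertex) (i : Fin 3)
  deriving DecidableEq

/-- The vertex of a corner. -/
def Corner.vertex : Corner → Vertex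
  | .down v _ => v
  | .up v i => i :: v

/-- The next corner in the clockwise contour: cross the edge that follows the corner, and take the
corner just after this edge at its other endpoint. -/
def Corner.next : Corner → Corner
  | .down v i => .down (i :: v) 0
  | .up v 0 => .down v 1
  | .up v 1 => .down v 2
  | .up [] 2 => .down [] 0
  | .up (i :: v) 2 => .up v i

/-- `c'` is the first corner after `c` in the clockwise contour whose label is `l - 1`, where `l` is
the label of `c`. -/
def IsSucc (d : TreeEdge → ℤ) (c c' : Corner) : Prop :=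
  ∃ n : ℕ, 1 ≤ n ∧ c' = Corner.next^[n] c ∧ label d c'.vertex = label d c.vertex - 1 ∧
    ∀ m, 1 ≤ m → m < n → label d (Corner.next^[m] c).vertex ≠ label d c.vertex - 1

/-- The quadrangulation, as a graph on the vertices of the tree: two vertices are adjacent if one of
them has a corner whose successor is a corner of the other. -/
def SHIQ (d : TreeEdge → ℤ) : SimpleGraph Vertex :=
  SimpleGraph.fromRel fun u v => ∃ c c', IsSucc d c c' ∧ c.vertex = u ∧ c'.vertex = v

/-- The law of the increments: independent, uniform on `{-1, 0, 1}`. -/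
noncomputable def labelLaw : Measure (TreeEdge → ℤ) :=
  Measure.infinitePi fun _ => uniformOn ({-1, 0, 1} : Set ℤ)

/-! ### Anchored expansion -/

section AnchoredExpansion

variable {V : Type*}

/-- The edge boundary of `S`: the edges with exactly one endpoint in `S`. -/
def edgeBoundary (G : SimpleGraph V) (S : Finset V) : Set (Sym2 V) :=
  {e | ∃ u v, G.Adj u v ∧ u ∈ S ∧ v ∉ S ∧ e = s(u, v)}

/-- The volume `∑ v ∈ S, deg v`. -/
noncomputable def degVol (G : SimpleGraph V) (S : Finset V) : ℕ :=
  ∑ v ∈ S, (G.neighborSet v).ncard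

/-- The infimum of `|∂_E S| / |S|_deg` over the finite connected sets `S` that contain `o` and have
`|S|_deg ≥ n`. -/
noncomputable def anchoredInf (G : SimpleGraph V) (o : V) (n : ℕ) : ℝ≥0∞ :=
  ⨅ (S : Finset V) (_ : o ∈ S ∧ (G.induce (S : Set V)).Connected ∧ n ≤ degVol G S),
    ((edgeBoundary G S).ncard : ℝ≥0∞) / (degVol G S : ℝ≥0∞)

end AnchoredExpansion

/-! ## The contour -/

namespace Corner

/-- The previous corner in the clockwise contour. -/
def prev : Corner → Corner
  | .down [] 0 => .up [] 2
  | .down (i :: v) 0 => .down v i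
  | .down v 1 => .up v 0
  | .down v 2 => .up v 1
  | .up v i => .up (i :: v) 2

lemma next_prev (c : Corner) : c.prev.next = c := by
  rcases c with ⟨v, i⟩ | ⟨v, i⟩
  · fin_cases i
    · rcases v with _ | ⟨j, v⟩
      · rfl
      · rfl
    · cases v <;> rfl
    · cases v <;> rfl
  · rfl

lemma prev_next (c : Corner) : c.next.prev = c := by
  rcases c with ⟨v, i⟩ | ⟨v, i⟩
  · rfl
  · fin_cases i
    · cases v <;> rfl
    · cases v <;> rfl
    · rcases v with _ | ⟨j, v⟩
      · rfl
      · rfl

lemma prev_iterate_next_iterate (c : Corner) (n : ℕ) : prev^[n] (next^[n] c) = c :=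
  Function.LeftInverse.iterate prev_next n c

lemma next_iterate_prev_iterate (c : Corner) (n : ℕ) : next^[n] (prev^[n] c) = c :=
  Function.LeftInverse.iterate next_prev n c

/-- After a `down` corner, the contour follows the leftmost ray. -/
lemma next_iterate_down (v : Vertex) (i : Fin 3) (n : ℕ) :
    next^[n + 1] (down v i) = down (List.replicate n 0 ++ i :: v) 0 := by
  induction n with
  | zero => rfl
  | succ n ih =>
    rw [Function.iterate_succ_apply', ih]
    rfl

/-- Before an `up` corner, the contour follows the rightmost ray. -/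
lemma prev_iterate_up (v : Vertex) (i : Fin 3) (n : ℕ) :
    (prev^[n] (up v i)).vertex = List.replicate n 2 ++ i :: v := by
  have h : ∀ n, prev^[n + 1] (up v i) = up (List.replicate n 2 ++ i :: v) 2 := by
    intro n
    induction n with
    | zero => rfl
    | succ n ih =>
      rw [Function.iterate_succ_apply', ih]
      rfl
  rcases n with _ | n
  · rfl
  · rw [h]; rfl

/-- The contour started at an `up` corner reaches a `down` corner. -/
lemma exists_down (v : Vertex) (i : Fin 3) : ∃ n w j, next^[n] (up v i) = down w j := by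
  induction v generalizing i with
  | nil =>
    fin_cases i
    · exact ⟨1, [], 1, rfl⟩
    · exact ⟨1, [], 2, rfl⟩
    · exact ⟨1, [], 0, rfl⟩
  | cons k v ih =>
    fin_cases i
    · exact ⟨1, k :: v, 1, rfl⟩
    · exact ⟨1, k :: v, 2, rfl⟩
    · obtain ⟨n, w, j, h⟩ := ih k
      exact ⟨n + 1, w, j, by rw [Function.iterate_succ_apply]; exact h⟩

/-- The reversed contour started at a `down` corner reaches an `up` corner. -/
lemma exists_up (v : Vertex) (i : Fin 3) : ∃ n w j, prev^[n] (down v i) = up w j := by
  induction v generalizing i with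
  | nil =>
    fin_cases i
    · exact ⟨1, [], 2, rfl⟩
    · exact ⟨1, [], 0, rfl⟩
    · exact ⟨1, [], 1, rfl⟩
  | cons k v ih =>
    fin_cases i
    · obtain ⟨n, w, j, h⟩ := ih k
      exact ⟨n + 1, w, j, by rw [Function.iterate_succ_apply]; exact h⟩
    · exact ⟨1, k :: v, 0, rfl⟩
    · exact ⟨1, k :: v, 1, rfl⟩

/-- The contour after `up v i` never enters the subtree of `i :: v`. -/
lemma not_suffix_up (v : Vertex) (i : Fin 3) (n : ℕ) :
    ¬ (i :: v) <:+ (next^[n + 1] (up v i)).vertex := by
  have aux : ∀ (v : Vertex) (i j : Fin 3), i ≠ j → ∀ n,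
      ¬ (i :: v) <:+ (next^[n] (down v j)).vertex := by
    intro v i j hij n h
    rcases n with _ | n
    · have := h.length_le
      simp [vertex] at this
    · rw [next_iterate_down] at h
      have h2 : (j :: v) <:+ List.replicate n (0 : Fin 3) ++ j :: v := List.suffix_append _ _
      have h3 : i :: v = j :: v := by
        rcases List.suffix_or_suffix_of_suffix h h2 with h4 | h4
        · exact h4.eq_of_length (by simp)
        · exact (h4.eq_of_length (by simp)).symm
      exact hij (List.head_eq_of_cons_eq h3)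
  induction v generalizing i n with
  | nil =>
    fin_cases i
    · exact aux [] 0 1 (by decide) n
    · exact aux [] 1 2 (by decide) n
    · exact aux [] 2 0 (by decide) n
  | cons k v ih =>
    fin_cases i
    · exact aux (k :: v) 0 1 (by decide) n
    · exact aux (k :: v) 1 2 (by decide) n
    · intro h
      rw [Function.iterate_succ_apply] at h
      change (2 :: k :: v) <:+ (next^[n] (up v k)).vertex at h
      rcases n with _ | n
      · have := h.length_le
        simp [vertex] at this
      · exact ih k n ((List.suffix_cons _ _).trans h)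

end Corner

/-! ## Deterministic analysis of the construction -/

/-- The properties of the labels that are used. They hold almost surely. -/
structure Good (d : TreeEdge → ℤ) : Prop where
  step : ∀ e, |d e| ≤ 1
  ray : ∀ (k : Fin 3) (v : Vertex) (K : ℤ), ∃ n, label d (List.replicate n k ++ v) < K

/-- A sequence of integers with steps at most one in absolute value that goes below its starting
point hits `a 0 - 1`. -/
lemma exists_first {a : ℕ → ℤ} (ha : ∀ n, |a (n + 1) - a n| ≤ 1) (h : ∃ N, a N < a 0) :
    ∃ n, 1 ≤ n ∧ a n = a 0 - 1 ∧ ∀ m < n, a 0 ≤ a m := by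
  classical
  set n := Nat.find h with hn
  have h1 : a n < a 0 := Nat.find_spec h
  have h2 : ∀ m < n, a 0 ≤ a m := fun m hm => not_lt.1 (Nat.find_min h hm)
  have h0 : n ≠ 0 := by
    intro h0; rw [h0] at h1; exact lt_irrefl _ h1
  obtain ⟨m, hm⟩ := Nat.exists_eq_succ_of_ne_zero h0
  have h3 := h2 m (by omega)
  have h4 := abs_le.1 (ha m)
  rw [← Nat.succ_eq_add_one, ← hm] at h4
  exact ⟨n, by omega, by omega, h2⟩

/-- Discrete intermediate value property. -/
lemma exists_between {a : ℕ → ℤ} (ha : ∀ n, |a (n + 1) - a n| ≤ 1) {N n : ℕ} {l : ℤ}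
    (hNn : N ≤ n) (h1 : a N < l) (h2 : l < a n) : ∃ m, N < m ∧ m < n ∧ a m = l := by
  induction n, hNn using Nat.le_induction with
  | base => omega
  | succ n hn ih =>
    have h4 := abs_le.1 (ha n)
    rcases lt_trichotomy (a n) l with h | h | h
    · omega
    · refine ⟨n, ?_, Nat.lt_succ_self n, h⟩
      rcases hn.eq_or_lt with rfl | h5
      · omega
      · exact h5
    · obtain ⟨m, hm1, hm2, hm3⟩ := ih h
      exact ⟨m, hm1, by omega, hm3⟩

section Deterministic

variable {d : TreeEdge → ℤ}

lemma Good.label_next (hd : Good d) (c : Corner) :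
    |label d c.next.vertex - label d c.vertex| ≤ 1 := by
  have h1 : ∀ v i, |label d (i :: v) - label d v| ≤ 1 := by
    intro v i
    simpa [label] using hd.step (v, i)
  have h2 : ∀ v i, |label d v - label d (i :: v)| ≤ 1 := by
    intro v i
    rw [abs_sub_comm]; exact h1 v i
  rcases c with ⟨v, i⟩ | ⟨v, i⟩
  · exact h1 v i
  · fin_cases i
    · exact h2 v 0
    · exact h2 v 1
    · rcases v with _ | ⟨j, v⟩
      · exact h2 [] 2
      · exact h2 (j :: v) 2

lemma Good.label_prev (hd : Good d) (c : Corner) :
    |label d c.prev.vertex - label d c.vertex| ≤ 1 := by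
  have := hd.label_next c.prev
  rwa [Corner.next_prev, abs_sub_comm] at this

/-- The labels along the contour are unbounded below. -/
lemma Good.forward (hd : Good d) (c : Corner) (K : ℤ) :
    ∃ n, label d (Corner.next^[n] c).vertex < K := by
  have key : ∀ v i K, ∃ n, label d (Corner.next^[n] (.down v i)).vertex < K := by
    intro v i K
    obtain ⟨n, hn⟩ := hd.ray 0 (i :: v) K
    exact ⟨n + 1, by rw [Corner.next_iterate_down]; exact hn⟩
  rcases c with ⟨v, i⟩ | ⟨v, i⟩
  · exact key v i K
  · obtain ⟨m, w, j, h⟩ := Corner.exists_down v i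
    obtain ⟨n, hn⟩ := key w j K
    exact ⟨n + m, by rw [Function.iterate_add_apply, h]; exact hn⟩

/-- The labels along the reversed contour are unbounded below. -/
lemma Good.backward (hd : Good d) (c : Corner) (K : ℤ) :
    ∃ n, label d (Corner.prev^[n] c).vertex < K := by
  have key : ∀ v i K, ∃ n, label d (Corner.prev^[n] (.up v i)).vertex < K := by
    intro v i K
    obtain ⟨n, hn⟩ := hd.ray 2 (i :: v) K
    exact ⟨n, by rw [Corner.prev_iterate_up]; exact hn⟩
  rcases c with ⟨v, i⟩ | ⟨v, i⟩
  · obtain ⟨m, w, j, h⟩ := Corner.exists_up v i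
    obtain ⟨n, hn⟩ := key w j K
    exact ⟨n + m, by rw [Function.iterate_add_apply, h]; exact hn⟩
  · exact key v i K

/-- Every corner has a successor. -/
lemma Good.exists_succ (hd : Good d) (c : Corner) : ∃ c', IsSucc d c c' := by
  obtain ⟨n, hn1, hn2, hn3⟩ := exists_first (a := fun n => label d (Corner.next^[n] c).vertex)
    (fun n => by
      simp only [Function.iterate_succ_apply']
      exact hd.label_next _) (hd.forward c _)
  refine ⟨_, n, hn1, rfl, hn2, fun m _ hm => ?_⟩
  have := hn3 m hm
  simp only [Function.iterate_zero, id_eq] at this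
  omega

lemma IsSucc.label_eq {c c' : Corner} (h : IsSucc d c c') :
    label d c'.vertex = label d c.vertex - 1 := by
  obtain ⟨_, _, _, h, _⟩ := h; exact h

lemma IsSucc.unique {c c₁ c₂ : Corner} (h₁ : IsSucc d c c₁) (h₂ : IsSucc d c c₂) : c₁ = c₂ := by
  obtain ⟨n, hn1, hn2, hn3, hn4⟩ := h₁
  obtain ⟨m, hm1, hm2, hm3, hm4⟩ := h₂
  rcases lt_trichotomy n m with h | h | h
  · exact absurd (hn2 ▸ hn3) (hm4 n hn1 h)
  · rw [hn2, hm2, h]
  · exact absurd (hm2 ▸ hm3) (hn4 m hm1 h)

/-- The successor of a `down` corner lies on the leftmost ray below it. -/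
lemma IsSucc.down {v : Vertex} {i : Fin 3} {c' : Corner} (h : IsSucc d (.down v i) c') :
    ∃ n, c' = .down (List.replicate n 0 ++ i :: v) 0 := by
  obtain ⟨n, hn1, hn2, -, -⟩ := h
  obtain ⟨m, rfl⟩ : ∃ m, n = m + 1 := ⟨n - 1, by omega⟩
  exact ⟨m, by rw [hn2, Corner.next_iterate_down]⟩

/-- The successor of an `up` corner is not in the subtree of its vertex. -/
lemma IsSucc.up {v : Vertex} {i : Fin 3} {c' : Corner} (h : IsSucc d (.up v i) c') :
    ¬ (i :: v) <:+ c'.vertex := by
  obtain ⟨n, hn1, hn2, -, -⟩ := h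
  obtain ⟨m, rfl⟩ : ∃ m, n = m + 1 := ⟨n - 1, by omega⟩
  rw [hn2]
  exact Corner.not_suffix_up v i m

lemma cons_eq_of_suffix {i j : Fin 3} {v w : Vertex} (h1 : (i :: v) <:+ w) (h2 : (j :: v) <:+ w) :
    i = j := by
  have h3 : i :: v = j :: v := by
    rcases List.suffix_or_suffix_of_suffix h1 h2 with h4 | h4
    · exact h4.eq_of_length (by simp)
    · exact (h4.eq_of_length (by simp)).symm
  exact List.head_eq_of_cons_eq h3

/-- Distinct corners at the same vertex have successors at distinct vertices. -/
lemma succ_vertex_injective {c₁ c₂ c₁' c₂' : Corner} (h₁ : IsSucc d c₁ c₁') (h₂ : IsSucc d c₂ c₂')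
    (hv : c₁.vertex = c₂.vertex) (hv' : c₁'.vertex = c₂'.vertex) : c₁ = c₂ := by
  have hdown : ∀ {v i c'}, IsSucc d (.down v i) c' → (i :: v) <:+ c'.vertex := by
    intro v i c' h
    obtain ⟨n, rfl⟩ := h.down
    exact List.suffix_append _ _
  rcases c₁ with ⟨v, i⟩ | ⟨v, i⟩ <;> rcases c₂ with ⟨w, j⟩ | ⟨w, j⟩
  · change v = w at hv
    subst hv
    have h3 := hdown h₁
    have h4 := hdown h₂
    rw [hv'] at h3
    rw [cons_eq_of_suffix h3 h4]
  · change v = j :: w at hv
    subst hv
    have h3 := hdown h₁
    rw [hv'] at h3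
    exact absurd ((List.suffix_cons _ _).trans h3) h₂.up
  · change i :: v = w at hv
    subst hv
    have h4 := hdown h₂
    rw [← hv'] at h4
    exact absurd ((List.suffix_cons _ _).trans h4) h₁.up
  · change i :: v = j :: w at hv
    obtain ⟨rfl, rfl⟩ := List.cons_eq_cons.1 hv
    rfl

/-- Distinct corners give distinct edges. -/
lemma edge_injective {c₁ c₂ c₁' c₂' : Corner} (h₁ : IsSucc d c₁ c₁') (h₂ : IsSucc d c₂ c₂')
    (h : s(c₁.vertex, c₁'.vertex) = s(c₂.vertex, c₂'.vertex)) : c₁ = c₂ := by
  rcases Sym2.eq_iff.1 h with ⟨h3, h4⟩ | ⟨h3, h4⟩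
  · exact succ_vertex_injective h₁ h₂ h3 h4
  · have e1 := h₁.label_eq
    have e2 := h₂.label_eq
    rw [h4] at e1
    rw [← h3] at e2
    omega

/-- The directed edges. -/
def Out (d : TreeEdge → ℤ) (u v : Vertex) : Prop :=
  ∃ c c', IsSucc d c c' ∧ c.vertex = u ∧ c'.vertex = v

lemma Out.label_eq {u v : Vertex} (h : Out d u v) : label d v = label d u - 1 := by
  obtain ⟨c, c', h, rfl, rfl⟩ := h
  exact h.label_eq

lemma adj_iff {u v : Vertex} : (SHIQ d).Adj u v ↔ Out d u v ∨ Out d v u := by
  unfold SHIQ
  rw [SimpleGraph.fromRel_adj]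
  refine ⟨fun h => h.2, fun h => ⟨?_, h⟩⟩
  rintro rfl
  rcases h with h | h
  · have := h.label_eq; omega
  · have := h.label_eq; omega

/-! ### Connectedness -/

lemma vertex_next_up (v : Vertex) (i : Fin 3) : (Corner.up v i).next.vertex = v := by
  fin_cases i
  · rfl
  · rfl
  · cases v <;> rfl

lemma Good.reach_child (hd : Good d) (v : Vertex) (i : Fin 3) :
    (SHIQ d).Reachable v (i :: v) := by
  have h1 := abs_le.1 (hd.step (v, i))
  have h2 : label d (i :: v) = label d v + d (v, i) := rfl
  have h3 : d (v, i) = -1 ∨ d (v, i) = 0 ∨ d (v, i) = 1 := by omega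
  rcases h3 with h3 | h3 | h3
  · refine SimpleGraph.Adj.reachable (adj_iff.2 (Or.inl ⟨.down v i, .down (i :: v) 0, ?_, rfl, rfl⟩))
    exact ⟨1, le_rfl, rfl, by simp only [Corner.vertex]; omega, fun m _ _ => by omega⟩
  · obtain ⟨c', hc'⟩ := hd.exists_succ (.down (i :: v) 0)
    have h4 : IsSucc d (.down v i) c' := by
      obtain ⟨n, hn1, hn2, hn3, hn4⟩ := hc'
      refine ⟨n + 1, by omega, by rw [Function.iterate_succ_apply]; exact hn2, ?_, ?_⟩
      · rw [hn3]; simp only [Corner.vertex]; omega
      · intro m hm1 hm2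
        obtain ⟨m, rfl⟩ : ∃ k, m = k + 1 := ⟨m - 1, by omega⟩
        rw [Function.iterate_succ_apply]
        rcases Nat.eq_zero_or_pos m with rfl | hm
        · simp only [Corner.next, Function.iterate_zero, id_eq, Corner.vertex]; omega
        · have := hn4 m hm (by omega)
          simp only [Corner.vertex] at this
          simp only [Corner.next, Corner.vertex]
          omega
    have h5 : (SHIQ d).Reachable v c'.vertex :=
      SimpleGraph.Adj.reachable (adj_iff.2 (Or.inl ⟨_, _, h4, rfl, rfl⟩))
    have h6 : (SHIQ d).Reachable (i :: v) c'.vertex :=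
      SimpleGraph.Adj.reachable (adj_iff.2 (Or.inl ⟨_, _, hc', rfl, rfl⟩))
    exact h5.trans h6.symm
  · refine SimpleGraph.Adj.reachable (adj_iff.2 (Or.inr ⟨.up v i, (Corner.up v i).next, ?_, rfl,
      vertex_next_up v i⟩))
    refine ⟨1, le_rfl, rfl, ?_, fun m _ _ => by omega⟩
    rw [vertex_next_up]
    simp only [Corner.vertex]; omega

lemma Good.connected (hd : Good d) : (SHIQ d).Connected := by
  have h : ∀ v, (SHIQ d).Reachable [] v := by
    intro v
    induction v with
    | nil => exact SimpleGraph.Reachable.refl _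
    | cons i v ih => exact ih.trans (hd.reach_child v i)
  have : Nonempty Vertex := ⟨[]⟩
  exact SimpleGraph.Connected.mk fun u v => (h u).symm.trans (h v)

/-! ### Local finiteness -/

/-- The corners at a vertex. -/
noncomputable def cornersAt : Vertex → Finset Corner
  | [] => {.down [] 0, .down [] 1, .down [] 2}
  | i :: v => {.down (i :: v) 0, .down (i :: v) 1, .down (i :: v) 2, .up v i}

lemma mem_cornersAt {c : Corner} {v : Vertex} : c ∈ cornersAt v ↔ c.vertex = v := by
  rcases v with _ | ⟨i, v⟩
  · simp only [cornersAt, Finset.mem_insert, Finset.mem_singleton]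
    constructor
    · rintro (rfl | rfl | rfl) <;> rfl
    · rcases c with ⟨w, j⟩ | ⟨w, j⟩
      · rintro rfl
        fin_cases j <;> simp
      · intro h; exact absurd h (List.cons_ne_nil _ _)
  · simp only [cornersAt, Finset.mem_insert, Finset.mem_singleton]
    constructor
    · rintro (rfl | rfl | rfl | rfl) <;> rfl
    · rcases c with ⟨w, j⟩ | ⟨w, j⟩
      · intro h
        change w = i :: v at h
        subst h
        fin_cases j <;> simp
      · intro h
        change j :: w = i :: v at h
        obtain ⟨rfl, rfl⟩ := List.cons_eq_cons.1 h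
        simp

lemma card_cornersAt_le (v : Vertex) : (cornersAt v).card ≤ 4 := by
  rcases v with _ | ⟨i, v⟩
  · exact (Finset.card_le_three).trans (by norm_num)
  · exact Finset.card_le_four

/-- The successor map. -/
noncomputable def Good.sc (hd : Good d) (c : Corner) : Corner := (hd.exists_succ c).choose

lemma Good.isSucc_sc (hd : Good d) (c : Corner) : IsSucc d c (hd.sc c) :=
  (hd.exists_succ c).choose_spec

/-- The out-neighbours of a vertex. -/
noncomputable def Good.outN (hd : Good d) (u : Vertex) : Finset Vertex :=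
  (cornersAt u).image fun c => (hd.sc c).vertex

lemma Good.mem_outN (hd : Good d) {u v : Vertex} : v ∈ hd.outN u ↔ Out d u v := by
  simp only [Good.outN, Finset.mem_image, mem_cornersAt]
  constructor
  · rintro ⟨c, rfl, rfl⟩
    exact ⟨c, _, hd.isSucc_sc c, rfl, rfl⟩
  · rintro ⟨c, c', h, rfl, rfl⟩
    exact ⟨c, rfl, by rw [(hd.isSucc_sc c).unique h]⟩

lemma Good.card_outN_le (hd : Good d) (u : Vertex) : (hd.outN u).card ≤ 4 :=
  Finset.card_image_le.trans (card_cornersAt_le u)

/-- Only finitely many corners have a given corner as their successor. -/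
lemma Good.finite_pred (hd : Good d) (c' : Corner) : {c | IsSucc d c c'}.Finite := by
  obtain ⟨N, hN⟩ := hd.backward c' (label d c'.vertex)
  refine ((Finset.range (N + 1)).image fun n => Corner.prev^[n] c').finite_toSet.subset ?_
  rintro c ⟨n, hn1, hn2, hn3, hn4⟩
  have hc : Corner.prev^[n] c' = c := by rw [hn2, Corner.prev_iterate_next_iterate]
  have hnN : n ≤ N := by
    by_contra hlt
    push Not at hlt
    obtain ⟨m, hm1, hm2, hm3⟩ := exists_between
      (a := fun n => label d (Corner.prev^[n] c').vertex) (l := label d c'.vertex)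
      (fun n => by
        simp only [Function.iterate_succ_apply']
        exact hd.label_prev _) hlt.le hN (by simp only [hc]; omega)
    have h5 : Corner.next^[n - m] c = Corner.prev^[m] c' := by
      have h6 : Corner.next^[m] (Corner.next^[n - m] c) = c' := by
        rw [← Function.iterate_add_apply, Nat.add_sub_cancel' hm2.le, hn2]
      rw [← h6, Corner.prev_iterate_next_iterate]
    exact hn4 (n - m) (by omega) (by omega) (by rw [h5]; omega)
  rw [Finset.coe_image]
  exact ⟨n, by simp; omega, hc⟩

lemma Good.finite_in (hd : Good d) (v : Vertex) : {u | Out d u v}.Finite := by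
  have h : {u | Out d u v} ⊆ ⋃ c' ∈ cornersAt v, Corner.vertex '' {c | IsSucc d c c'} := by
    rintro u ⟨c, c', h, rfl, rfl⟩
    simp only [Set.mem_iUnion]
    exact ⟨c', mem_cornersAt.2 rfl, c, h, rfl⟩
  refine Set.Finite.subset ?_ h
  exact Set.Finite.biUnion (cornersAt v).finite_toSet fun c' _ => (hd.finite_pred c').image _

lemma Good.finite_neighborSet (hd : Good d) (v : Vertex) : ((SHIQ d).neighborSet v).Finite := by
  refine ((hd.outN v).finite_toSet.union (hd.finite_in v)).subset ?_
  intro u hu
  rw [SimpleGraph.mem_neighborSet, adj_iff] at hu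
  rcases hu with h | h
  · exact Or.inl (hd.mem_outN.2 h)
  · exact Or.inr h

/-! ### Expansion -/

open Classical in
/-- The two special out-neighbours, one below each of the last two children. -/
noncomputable def Good.sp (hd : Good d) (p : Vertex × Bool) : Vertex :=
  (hd.sc (.down p.1 (if p.2 then 2 else 1))).vertex

lemma Good.out_sp (hd : Good d) (p : Vertex × Bool) : Out d p.1 (hd.sp p) :=
  ⟨_, _, hd.isSucc_sc _, rfl, rfl⟩

/-- The vertex `0, …, 0, i, v` with `i ≠ 0` determines `i` and `v`. -/
lemma replicate_injective {n m : ℕ} {i j : Fin 3} {v w : Vertex} (hi : i ≠ 0) (hj : j ≠ 0)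
    (h : List.replicate n 0 ++ i :: v = List.replicate m 0 ++ j :: w) : i = j ∧ v = w := by
  induction n generalizing m with
  | zero =>
    rcases m with _ | m
    · exact List.cons_eq_cons.1 (by simpa using h)
    · exfalso
      rw [List.replicate_zero, List.nil_append, List.replicate_succ, List.cons_append] at h
      exact hi (List.cons_eq_cons.1 h).1
  | succ n ih =>
    rcases m with _ | m
    · exfalso
      rw [List.replicate_zero, List.nil_append, List.replicate_succ, List.cons_append] at h
      exact hj (List.cons_eq_cons.1 h).1.symm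
    · apply ih (m := m)
      rw [List.replicate_succ, List.replicate_succ, List.cons_append, List.cons_append] at h
      exact (List.cons_eq_cons.1 h).2

lemma Good.sp_injective (hd : Good d) : Function.Injective hd.sp := by
  rintro ⟨v, a⟩ ⟨w, b⟩ h
  obtain ⟨n, hn⟩ := (hd.isSucc_sc (.down v (if a then 2 else 1))).down
  obtain ⟨m, hm⟩ := (hd.isSucc_sc (.down w (if b then 2 else 1))).down
  unfold Good.sp at h
  simp only at h
  rw [hn, hm] at h
  obtain ⟨h1, h2⟩ := replicate_injective (by split_ifs <;> decide) (by split_ifs <;> decide) h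
  subst h2
  rcases a <;> rcases b <;> first | rfl | (exfalso; revert h1; decide)

/-- The neighbours of a vertex, as a finset. -/
noncomputable def Good.nb (hd : Good d) (v : Vertex) : Finset Vertex :=
  (hd.finite_neighborSet v).toFinset

lemma Good.mem_nb (hd : Good d) {u v : Vertex} : v ∈ hd.nb u ↔ Out d u v ∨ Out d v u := by
  rw [Good.nb, Set.Finite.mem_toFinset, SimpleGraph.mem_neighborSet, adj_iff]

lemma Good.degVol_eq (hd : Good d) (S : Finset Vertex) :
    degVol (SHIQ d) S = ∑ u ∈ S, (hd.nb u).card := by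
  unfold degVol
  refine Finset.sum_congr rfl fun u _ => ?_
  rw [Set.ncard_eq_toFinset_card _ (hd.finite_neighborSet u)]
  rfl

open Classical in
lemma Good.boundary_eq (hd : Good d) (S : Finset Vertex) :
    (edgeBoundary (SHIQ d) S).ncard = ∑ u ∈ S, ((hd.nb u).filter (· ∉ S)).card := by
  rw [← Finset.card_sigma]
  set D : Finset (Σ _ : Vertex, Vertex) := S.sigma fun u => (hd.nb u).filter (· ∉ S) with hD
  have h1 : edgeBoundary (SHIQ d) S = (fun p : Σ _ : Vertex, Vertex => s(p.1, p.2)) '' D := by
    ext e
    simp only [edgeBoundary, Set.mem_image, hD, Finset.mem_coe, Finset.mem_sigma,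
      Finset.mem_filter]
    constructor
    · rintro ⟨u, v, h1, h2, h3, rfl⟩
      exact ⟨⟨u, v⟩, ⟨h2, hd.mem_nb.2 (adj_iff.1 h1), h3⟩, rfl⟩
    · rintro ⟨⟨u, v⟩, ⟨h2, h1, h3⟩, rfl⟩
      exact ⟨u, v, adj_iff.2 (hd.mem_nb.1 h1), h2, h3, rfl⟩
  rw [h1, Set.InjOn.ncard_image, Set.ncard_coe_finset]
  rintro ⟨u, v⟩ h ⟨u', v'⟩ h' he
  simp only [hD, Finset.mem_coe, Finset.mem_sigma, Finset.mem_filter] at h h'
  rcases Sym2.eq_iff.1 he with ⟨h3, h4⟩ | ⟨h3, h4⟩
  · simp only at h3 h4
    subst h3 h4; rfl
  · simp only at h3 h4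
    subst h3 h4
    exact absurd h.1 h'.2.2

open Classical in
/-- **Edge expansion**: every finite set `S` satisfies `|S|_deg ≤ 7 |∂_E S|`. -/
lemma Good.expansion (hd : Good d) (S : Finset Vertex) :
    degVol (SHIQ d) S ≤ 7 * (edgeBoundary (SHIQ d) S).ncard := by
  rw [hd.degVol_eq, hd.boundary_eq]
  -- `A`: inner out-edges, `A'`: inner in-edges, `B`: boundary edges, `Bo`: outgoing boundary edges
  set A := ∑ u ∈ S, ((hd.nb u).filter fun v => v ∈ S ∧ Out d u v).card with hA
  set A' := ∑ u ∈ S, ((hd.nb u).filter fun v => v ∈ S ∧ Out d v u).card with hA'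
  set B := ∑ u ∈ S, ((hd.nb u).filter (· ∉ S)).card with hB
  set Bo := ∑ u ∈ S, ((hd.nb u).filter fun v => v ∉ S ∧ Out d u v).card with hBo
  have hexcl : ∀ u v, Out d u v → ¬ Out d v u := by
    intro u v h1 h2
    have := h1.label_eq
    have := h2.label_eq
    omega
  -- the volume
  have h1 : ∑ u ∈ S, (hd.nb u).card ≤ A + A' + B := by
    rw [hA, hA', hB, ← Finset.sum_add_distrib, ← Finset.sum_add_distrib]
    refine Finset.sum_le_sum fun u _ => ?_
    have hsub : hd.nb u ⊆ ((hd.nb u).filter fun v => v ∈ S ∧ Out d u v) ∪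
        ((hd.nb u).filter fun v => v ∈ S ∧ Out d v u) ∪ ((hd.nb u).filter (· ∉ S)) := by
      intro v hv
      simp only [Finset.mem_union, Finset.mem_filter]
      by_cases hS : v ∈ S
      · rcases hd.mem_nb.1 hv with h | h
        · exact Or.inl (Or.inl ⟨hv, hS, h⟩)
        · exact Or.inl (Or.inr ⟨hv, hS, h⟩)
      · exact Or.inr ⟨hv, hS⟩
    refine (Finset.card_le_card hsub).trans ?_
    refine (Finset.card_union_le _ _).trans ?_
    exact Nat.add_le_add_right (Finset.card_union_le _ _) _
  -- inner edges are counted twice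
  have h2 : A = A' := by
    have e1 : A = ∑ u ∈ S, (S.bipartiteAbove (Out d) u).card := by
      refine Finset.sum_congr rfl fun u _ => congrArg Finset.card ?_
      ext v
      simp only [Finset.mem_filter, Finset.bipartiteAbove, hd.mem_nb]
      tauto
    have e2 : A' = ∑ u ∈ S, (S.bipartiteBelow (Out d) u).card := by
      refine Finset.sum_congr rfl fun u _ => congrArg Finset.card ?_
      ext v
      simp only [Finset.mem_filter, Finset.bipartiteBelow, hd.mem_nb]
      tauto
    rw [e1, e2]
    exact Finset.sum_card_bipartiteAbove_eq_sum_card_bipartiteBelow _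
  -- out-degrees are at most four
  have h3 : A + Bo ≤ 4 * S.card := by
    rw [hA, hBo, ← Finset.sum_add_distrib]
    calc ∑ u ∈ S, (((hd.nb u).filter fun v => v ∈ S ∧ Out d u v).card +
          ((hd.nb u).filter fun v => v ∉ S ∧ Out d u v).card) ≤ ∑ u ∈ S, 4 := by
          refine Finset.sum_le_sum fun u _ => ?_
          rw [← Finset.card_union_of_disjoint]
          · refine (Finset.card_le_card ?_).trans (hd.card_outN_le u)
            intro v hv
            simp only [Finset.mem_union, Finset.mem_filter] at hv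
            rw [hd.mem_outN]
            tauto
          · rw [Finset.disjoint_left]
            intro v hv hv'
            simp only [Finset.mem_filter] at hv hv'
            exact hv'.2.1 hv.2.1
      _ = 4 * S.card := by simp [mul_comm]
  -- at least `|S|` special edges leave `S`
  have h4 : S.card ≤ Bo := by
    set T : Finset (Vertex × Bool) := S ×ˢ Finset.univ with hT
    have hTc : T.card = 2 * S.card := by
      rw [hT, Finset.card_product]; simp [mul_comm]
    have hin : (T.filter fun p => hd.sp p ∈ S).card ≤ S.card := by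
      refine Finset.card_le_card_of_injOn hd.sp ?_ (hd.sp_injective.injOn)
      intro p hp
      exact (Finset.mem_filter.1 hp).2
    have hout : (T.filter fun p => hd.sp p ∉ S).card ≤ Bo := by
      rw [hBo, ← Finset.card_sigma]
      refine Finset.card_le_card_of_injOn (fun p => (⟨p.1, hd.sp p⟩ : Σ _ : Vertex, Vertex)) ?_ ?_
      · intro p hp
        have hp' := Finset.mem_filter.1 hp
        simp only [Finset.mem_coe, Finset.mem_sigma, Finset.mem_filter]
        exact ⟨(Finset.mem_product.1 hp'.1).1, hd.mem_nb.2 (Or.inl (hd.out_sp p)), hp'.2,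
          hd.out_sp p⟩
      · intro p _ q _ h
        have h' : hd.sp p = hd.sp q := by
          have := congrArg (fun z : Σ _ : Vertex, Vertex => z.2) h
          exact this
        exact hd.sp_injective h'
    have hsum := Finset.card_filter_add_card_filter_not (s := T) (fun p => hd.sp p ∈ S)
    omega
  -- outgoing boundary edges are boundary edges
  have h5 : Bo ≤ B := by
    refine Finset.sum_le_sum fun u _ => Finset.card_le_card ?_
    intro v hv
    simp only [Finset.mem_filter] at hv ⊢
    exact ⟨hv.1, hv.2.1⟩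
  omega

open Classical in
lemma Good.boundary_le (hd : Good d) (S : Finset Vertex) :
    (edgeBoundary (SHIQ d) S).ncard ≤ degVol (SHIQ d) S := by
  rw [hd.degVol_eq, hd.boundary_eq]
  exact Finset.sum_le_sum fun u _ => Finset.card_filter_le _ _

lemma Good.card_le_degVol (hd : Good d) (S : Finset Vertex) : S.card ≤ degVol (SHIQ d) S := by
  rw [hd.degVol_eq]
  calc S.card = ∑ u ∈ S, 1 := by simp
    _ ≤ _ := Finset.sum_le_sum fun u _ => Finset.card_pos.2
        ⟨_, hd.mem_nb.2 (Or.inl (hd.out_sp (u, true)))⟩

/-- There are large finite connected sets that contain the root. -/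
lemma Good.exists_large (hd : Good d) (n : ℕ) : ∃ S : Finset Vertex, [] ∈ S ∧
    ((SHIQ d).induce (S : Set Vertex)).Connected ∧ n ≤ degVol (SHIQ d) S := by
  classical
  obtain ⟨m, hm⟩ := hd.ray 0 [] (-n)
  set w : Vertex := List.replicate m 0 ++ [] with hw
  obtain ⟨p⟩ := hd.connected.preconnected [] w
  have hlen : ∀ {u v : Vertex} (q : (SHIQ d).Walk u v),
      |label d v - label d u| ≤ q.length := by
    intro u v q
    induction q with
    | nil => simp
    | @cons a b c h q ih =>
      have h1 : |label d b - label d a| ≤ 1 := by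
        rcases adj_iff.1 h with h' | h'
        · rw [h'.label_eq]; simp
        · rw [h'.label_eq]; simp
      have h2 : label d c - label d a = (label d c - label d b) + (label d b - label d a) := by ring
      rw [h2, SimpleGraph.Walk.length_cons]
      push_cast
      exact (abs_add_le _ _).trans (by linarith)
  have h1 := hlen p.toPath.1
  have h2 : (p.toPath.1.support.toFinset).card = p.toPath.1.length + 1 := by
    rw [List.toFinset_card_of_nodup p.toPath.2.support_nodup, SimpleGraph.Walk.length_support]
  refine ⟨p.toPath.1.support.toFinset, by simp, ?_, ?_⟩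
  · have := p.toPath.1.connected_induce_support
    have e : {v | v ∈ p.toPath.1.support} = (p.toPath.1.support.toFinset : Set Vertex) := by
      ext v; simp
    rwa [e] at this
  · refine le_trans ?_ (hd.card_le_degVol _)
    rw [h2]
    have h3 : label d ([] : Vertex) = 0 := rfl
    rw [h3, sub_zero] at h1
    have := neg_le_abs (label d w)
    omega

/-! ### The anchored expansion constant -/

lemma anchoredInf_mono {V : Type*} (G : SimpleGraph V) (o : V) : Monotone (anchoredInf G o) := by
  intro m n hmn
  refine le_iInf₂ fun S hS => ?_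
  exact iInf₂_le S ⟨hS.1, hS.2.1, hmn.trans hS.2.2⟩

lemma Good.le_anchoredInf (hd : Good d) (n : ℕ) : 1 / 7 ≤ anchoredInf (SHIQ d) [] n := by
  refine le_iInf₂ fun S hS => ?_
  have h0 : 0 < degVol (SHIQ d) S :=
    (Finset.card_pos.2 ⟨_, hS.1⟩).trans_le (hd.card_le_degVol S)
  have h1 := hd.expansion S
  have h0' : ((degVol (SHIQ d) S : ℕ) : ℝ≥0∞) ≠ 0 := by exact_mod_cast h0.ne'
  rw [ENNReal.le_div_iff_mul_le (Or.inl h0') (Or.inl (ENNReal.natCast_ne_top _)), mul_comm,
    ← div_eq_mul_one_div]
  refine ENNReal.div_le_of_le_mul' ?_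
  exact_mod_cast h1

lemma Good.anchoredInf_le (hd : Good d) (n : ℕ) : anchoredInf (SHIQ d) [] n ≤ 1 := by
  obtain ⟨S, h1, h2, h3⟩ := hd.exists_large n
  refine (iInf₂_le S ⟨h1, h2, h3⟩).trans ?_
  refine ENNReal.div_le_of_le_mul ?_
  rw [one_mul]
  exact_mod_cast hd.boundary_le S

lemma Good.exists_limit (hd : Good d) : ∃ i : ℝ≥0∞, 1 / 7 ≤ i ∧ i ≤ 1 ∧
    Tendsto (anchoredInf (SHIQ d) []) atTop (𝓝 i) :=
  ⟨⨆ n, anchoredInf (SHIQ d) [] n, (hd.le_anchoredInf 0).trans (le_iSup _ 0),
    iSup_le hd.anchoredInf_le, tendsto_atTop_iSup (anchoredInf_mono _ _)⟩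

end Deterministic

/-! ## The labels are good almost surely -/

section Random

variable {Ω : Type*} [MeasurableSpace Ω] {μ : Measure Ω} [IsProbabilityMeasure μ]

/-- A random walk with independent steps uniform on `{-1, 0, 1}` is almost surely unbounded
below. -/
lemma walk_unbounded (ξ : ℕ → Ω → ℤ) (hm : ∀ n, Measurable (ξ n)) (hi : iIndepFun ξ μ)
    (hu : ∀ n, ∀ k ∈ ({-1, 0, 1} : Finset ℤ), μ (ξ n ⁻¹' {k}) = 1 / 3) :
    ∀ᵐ ω ∂μ, ∀ K : ℤ, ∃ n, ∑ m ∈ Finset.range n, ξ m ω < K := by
  -- the steps are bounded by one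
  have hbd : ∀ᵐ ω ∂μ, ∀ n, ξ n ω = -1 ∨ ξ n ω = 0 ∨ ξ n ω = 1 := by
    rw [ae_all_iff]
    intro n
    have h1 : μ (ξ n ⁻¹' {-1} ∪ (ξ n ⁻¹' {0} ∪ ξ n ⁻¹' {1})) = 1 := by
      rw [measure_union, measure_union, hu n (-1) (by simp), hu n 0 (by simp), hu n 1 (by simp)]
      · rw [← add_assoc]; exact ENNReal.add_thirds 1
      · exact Disjoint.preimage _ (by simp)
      · exact (hm n) (MeasurableSet.singleton _)
      · exact Disjoint.union_right (Disjoint.preimage _ (by simp)) (Disjoint.preimage _ (by simp))
      · exact ((hm n) (MeasurableSet.singleton _)).union ((hm n) (MeasurableSet.singleton _))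
    have h2 : ∀ᵐ ω ∂μ, ω ∈ (ξ n ⁻¹' {-1} ∪ (ξ n ⁻¹' {0} ∪ ξ n ⁻¹' {1})) := by
      rw [← prob_compl_eq_zero_iff₀] at h1
      · exact h1
      · exact (((hm n) (MeasurableSet.singleton _)).union
          (((hm n) (MeasurableSet.singleton _)).union
          ((hm n) (MeasurableSet.singleton _)))).nullMeasurableSet
    filter_upwards [h2] with ω hω
    simpa using hω
  -- the martingale
  set X : ℕ → Ω → ℝ := fun n ω => -(ξ n ω : ℝ) with hX
  have hcast : Measurable fun k : ℤ => -(k : ℝ) := Measurable.of_discrete
  have hXm : ∀ n, Measurable (X n) := fun n => hcast.comp (hm n)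
  have hXs : ∀ n, StronglyMeasurable (X n) := fun n => (hXm n).stronglyMeasurable
  have hXi : iIndepFun X μ := hi.comp (fun _ k => -(k : ℝ)) fun _ => hcast
  have hXb : ∀ᵐ ω ∂μ, ∀ n, |X n ω| ≤ 1 := by
    filter_upwards [hbd] with ω hω n
    rcases hω n with h | h | h <;> simp [hX, h]
  have hXint : ∀ n, Integrable (X n) μ := fun n =>
    Integrable.of_bound (hXs n).aestronglyMeasurable 1 (by
      filter_upwards [hXb] with ω hω using by rw [Real.norm_eq_abs]; exact hω n)
  have hX0 : ∀ n, ∫ ω, X n ω ∂μ = 0 := by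
    intro n
    have e : X n =ᵐ[μ] fun ω => (ξ n ⁻¹' {-1}).indicator (fun _ => (1 : ℝ)) ω -
        (ξ n ⁻¹' {1}).indicator (fun _ => (1 : ℝ)) ω := by
      filter_upwards [hbd] with ω hω
      rcases hω n with h | h | h <;> simp [hX, h, Set.indicator]
    have hm1 : MeasurableSet (ξ n ⁻¹' {-1}) := hm n (MeasurableSet.singleton _)
    have hm2 : MeasurableSet (ξ n ⁻¹' {1}) := hm n (MeasurableSet.singleton _)
    rw [integral_congr_ae e, integral_sub, integral_indicator_const _ hm1,
      integral_indicator_const _ hm2, measureReal_def, measureReal_def, hu n (-1) (by simp),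
      hu n 1 (by simp), sub_self]
    · exact (integrable_const 1).indicator hm1
    · exact (integrable_const 1).indicator hm2
  set F := Filtration.natural X hXs with hF
  set f : ℕ → Ω → ℝ := fun n => ∑ k ∈ Finset.range (n + 1), X k with hf
  have hadapt : StronglyAdapted F f := by
    intro n
    refine Finset.stronglyMeasurable_sum _ fun k hk => ?_
    exact ((Filtration.stronglyAdapted_natural hXs) k).mono
      (F.mono (Nat.lt_succ_iff.1 (Finset.mem_range.1 hk)))
  have hfint : ∀ n, Integrable (f n) μ := fun n => integrable_finsetSum' _ fun k _ => hXint k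
  have hmart : Martingale f F μ := by
    refine martingale_nat hadapt hfint fun n => ?_
    have e1 : f (n + 1) = f n + X (n + 1) := by
      simp only [hf]; rw [Finset.sum_range_succ]
    rw [e1]
    have e2 := condExp_add (hfint n) (hXint (n + 1)) (F n)
    have e3 : μ[f n | F n] = f n := condExp_of_stronglyMeasurable (F.le n) (hadapt n) (hfint n)
    have e4 : μ[X (n + 1) | F n] =ᵐ[μ] fun _ => μ[X (n + 1)] :=
      hXi.condExp_natural_ae_eq_of_lt hXs (Nat.lt_succ_self n)
    filter_upwards [e2, e4] with ω h2 h4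
    rw [h2, Pi.add_apply, e3, h4, hX0, add_zero]
  have hconv := hmart.submartingale.bddAbove_iff_exists_tendsto (R := 1) (by
    filter_upwards [hXb] with ω hω n
    have : f (n + 1) ω - f n ω = X (n + 1) ω := by
      simp only [hf]; rw [Finset.sum_range_succ _ (n + 1)]; simp
    rw [this]
    simpa using hω (n + 1))
  -- infinitely many steps are equal to one
  have hfreq : ∀ᵐ ω ∂μ, ∃ᶠ n in atTop, ξ n ω = 1 := by
    have hsm : ∀ n, MeasurableSet (ξ n ⁻¹' {1}) := fun n => hm n (MeasurableSet.singleton _)
    have hind : iIndepSet (fun n => ξ n ⁻¹' {1}) μ := by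
      rw [iIndepSet_iff_meas_biInter hsm]
      intro s
      exact hi.measure_inter_preimage_eq_mul s fun _ _ => MeasurableSet.singleton _
    have htop : (∑' n, μ (ξ n ⁻¹' {1})) = ∞ := by
      have : ∀ n, μ (ξ n ⁻¹' {1}) = 1 / 3 := fun n => hu n 1 (by simp)
      simp only [this]
      exact ENNReal.tsum_const_eq_top_of_ne_zero (by simp)
    have h1 := measure_limsup_eq_one hsm hind htop
    have h2 : ∀ᵐ ω ∂μ, ω ∈ limsup (fun n => ξ n ⁻¹' {1}) atTop := by
      rw [← prob_compl_eq_zero_iff (MeasurableSet.measurableSet_limsup hsm)] at h1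
      exact h1
    filter_upwards [h2] with ω hω
    rw [mem_limsup_iff_frequently_mem] at hω
    exact hω.mono fun n hn => hn
  filter_upwards [hconv, hfreq] with ω h1 h2 K
  have hnot : ¬ BddAbove (Set.range fun n => f n ω) := by
    intro hb
    obtain ⟨c, hc⟩ := h1.1 hb
    have h3 : Tendsto (fun n => f (n + 1) ω - f n ω) atTop (𝓝 (c - c)) :=
      (hc.comp (tendsto_add_atTop_nat 1)).sub hc
    rw [sub_self] at h3
    have h4 : ∀ᶠ n in atTop, |f (n + 1) ω - f n ω| < 1 := by
      have := h3.abs
      rw [abs_zero] at this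
      exact this.eventually_lt_const one_pos
    have h5 : ∃ᶠ n in atTop, ξ (n + 1) ω = 1 := by
      rw [frequently_atTop] at h2 ⊢
      intro a
      obtain ⟨b, hb1, hb2⟩ := h2 (a + 1)
      exact ⟨b - 1, by omega, by rw [Nat.sub_add_cancel (by omega)]; exact hb2⟩
    obtain ⟨n, hn1, hn2⟩ := (h5.and_eventually h4).exists
    have h6 : f (n + 1) ω - f n ω = X (n + 1) ω := by
      simp only [hf]; rw [Finset.sum_range_succ _ (n + 1)]; simp
    rw [h6, hX] at hn2
    simp only [hn1] at hn2
    norm_num at hn2
  by_contra hcon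
  push Not at hcon
  apply hnot
  refine ⟨-(K : ℝ), ?_⟩
  rintro _ ⟨n, rfl⟩
  have h7 := hcon (n + 1)
  have h8 : f n ω = -((∑ m ∈ Finset.range (n + 1), ξ m ω : ℤ) : ℝ) := by
    simp only [hf, Finset.sum_apply, hX]
    push_cast
    rw [Finset.sum_neg_distrib]
  simp only
  rw [h8]
  have h9 : (K : ℝ) ≤ ((∑ m ∈ Finset.range (n + 1), ξ m ω : ℤ) : ℝ) := by exact_mod_cast h7
  linarith

end Random

instance : IsProbabilityMeasure (uniformOn ({-1, 0, 1} : Set ℤ)) :=
  isProbabilityMeasure_uniformOn (Set.toFinite _) ⟨0, by simp⟩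

instance : IsProbabilityMeasure labelLaw := by
  unfold labelLaw; infer_instance

lemma uniformOn_apply_third (k : ℤ) (hk : k ∈ ({-1, 0, 1} : Finset ℤ)) :
    uniformOn ({-1, 0, 1} : Set ℤ) {k} = 1 / 3 := by
  have h1 : ({-1, 0, 1} : Set ℤ) = (({-1, 0, 1} : Finset ℤ) : Set ℤ) := by simp
  have h2 : ({k} : Set ℤ) = (({k} : Finset ℤ) : Set ℤ) := by simp
  rw [h1, h2, uniformOn_apply_finset]
  rw [Finset.inter_singleton_of_mem hk]
  norm_num

lemma label_ray (d : TreeEdge → ℤ) (k : Fin 3) (v : Vertex) (n : ℕ) :
    label d (List.replicate n k ++ v) =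
      label d v + ∑ m ∈ Finset.range n, d (List.replicate m k ++ v, k) := by
  induction n with
  | zero => simp
  | succ n ih =>
    rw [Finset.sum_range_succ, ← add_assoc, ← ih, List.replicate_succ, List.cons_append]
    rfl

lemma labelLaw_eval (e : TreeEdge) (k : ℤ) (hk : k ∈ ({-1, 0, 1} : Finset ℤ)) :
    labelLaw ((fun d : TreeEdge → ℤ => d e) ⁻¹' {k}) = 1 / 3 := by
  have h := Measure.infinitePi_map_eval (fun _ : TreeEdge => uniformOn ({-1, 0, 1} : Set ℤ)) e
  rw [← uniformOn_apply_third k hk, ← h, Measure.map_apply (measurable_pi_apply e)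
    (MeasurableSet.singleton k)]
  rfl

/-- Almost every label configuration is good. -/
lemma ae_good : ∀ᵐ d ∂labelLaw, Good d := by
  have hind : iIndepFun (fun (e : TreeEdge) (d : TreeEdge → ℤ) => d e) labelLaw :=
    iIndepFun_infinitePi (X := fun _ x => x) fun _ => measurable_id
  have hstep : ∀ᵐ d ∂labelLaw, ∀ e : TreeEdge, |d e| ≤ 1 := by
    rw [ae_all_iff]
    intro e
    have h1 : ∀ᵐ x ∂(uniformOn ({-1, 0, 1} : Set ℤ)), |x| ≤ 1 := by
      have h2 : uniformOn ({-1, 0, 1} : Set ℤ) ({-1, 0, 1} : Set ℤ)ᶜ = 0 := by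
        rw [uniformOn_eq_zero_iff (Set.toFinite _)]; simp
      refine measure_mono_null ?_ h2
      intro x hx hx'
      apply hx
      rcases hx' with rfl | rfl | rfl <;> simp
    have h := Measure.infinitePi_map_eval (fun _ : TreeEdge => uniformOn ({-1, 0, 1} : Set ℤ)) e
    rw [← h] at h1
    exact ae_of_ae_map (measurable_pi_apply e).aemeasurable h1
  have hray : ∀ᵐ d ∂labelLaw, ∀ (k : Fin 3) (v : Vertex), ∀ K : ℤ,
      ∃ n, ∑ m ∈ Finset.range n, d (List.replicate m k ++ v, k) < K := by
    rw [ae_all_iff]
    intro k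
    rw [ae_all_iff]
    intro v
    have hinj : Function.Injective fun m : ℕ => ((List.replicate m k ++ v, k) : TreeEdge) := by
      intro m n h
      have := congrArg (fun z : TreeEdge => z.1.length) h
      simpa using this
    set ξ : ℕ → (TreeEdge → ℤ) → ℤ := fun m d => d (List.replicate m k ++ v, k) with hξ
    have hξi : iIndepFun ξ labelLaw := iIndepFun.precomp hinj hind
    have hξm : ∀ m, Measurable (ξ m) := fun m => measurable_pi_apply _
    have hξu : ∀ m, ∀ j ∈ ({-1, 0, 1} : Finset ℤ), labelLaw (ξ m ⁻¹' {j}) = 1 / 3 :=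
      fun m j hj => labelLaw_eval (List.replicate m k ++ v, k) j hj
    exact walk_unbounded ξ hξm hξi hξu
  filter_upwards [hstep, hray] with d h1 h2
  refine ⟨h1, fun k v K => ?_⟩
  obtain ⟨n, hn⟩ := h2 k v (K - label d v)
  exact ⟨n, by rw [label_ray]; omega⟩

/-- **Main result** (positive answer to Q1, in a stronger form). Almost surely:
* every corner has exactly one successor, and distinct corners give distinct edges (so the
  quadrangulation has no multiple edges and the graph `SHIQ d` records all of its edges);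
* `SHIQ d` is connected and locally finite;
* every finite set `S` of vertices satisfies `|S|_deg ≤ 7 |∂_E S|`, so that `SHIQ d` is
  nonamenable;
* the anchored expansion constant, the limit as `n → ∞` of the infimum of `|∂_E S| / |S|_deg` over
  the finite connected `S` containing the root with `|S|_deg ≥ n`, exists and lies in
  `[1/7, 1]`. -/
theorem result : ∀ᵐ d ∂labelLaw,
    (∀ c, ∃! c', IsSucc d c c') ∧
    (∀ c₁ c₁' c₂ c₂', IsSucc d c₁ c₁' → IsSucc d c₂ c₂' →
      s(c₁.vertex, c₁'.vertex) = s(c₂.vertex, c₂'.vertex) → c₁ = c₂) ∧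
    (SHIQ d).Connected ∧ (∀ v, ((SHIQ d).neighborSet v).Finite) ∧
    (∀ S : Finset Vertex, degVol (SHIQ d) S ≤ 7 * (edgeBoundary (SHIQ d) S).ncard) ∧
    ∃ i : ℝ≥0∞, Tendsto (anchoredInf (SHIQ d) []) atTop (𝓝 i) ∧ 1 / 7 ≤ i ∧ i ≤ 1 := by
  filter_upwards [ae_good] with d hd
  refine ⟨fun c => ⟨hd.sc c, hd.isSucc_sc c, fun c' h => h.unique (hd.isSucc_sc c)⟩,
    fun c₁ c₁' c₂ c₂' h₁ h₂ h => edge_injective h₁ h₂ h, hd.connected, hd.finite_neighborSet,
    hd.expansion, ?_⟩
  obtain ⟨i, h1, h2, h3⟩ := hd.exists_limit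
  exact ⟨i, h3, h1, h2⟩

end Pool.Agent.Results.MP_b23abe_pr.NonAmenable
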